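import Pool.Agent.H.MP_e848aa_gt.B

set_option autoImplicit false

namespace Pool.Agent.Results.MP_e848aa_gt.FreeSet

open Set Pool.Agent.H.MP_e848aa_gt

universe u

theorem result : List.TFAE
    [∀ (X Y : Type u) [TopologicalSpace X] [TopologicalSpace Y] (f : X → Y),
        Perf f → MetaL X → MetaL Y,
      ∀ (X Y : Type u) [TopologicalSpace X] [TopologicalSpace Y] [T35Space X] [T35Space Y]
        (f : X → Y), Perf f → MetaL X → MetaL Y,
      ∀ κ : Type u, ¬ Fr κ] := by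
  tfae_have 1 → 2 := fun h X Y _ _ _ _ f => h X Y f
  tfae_have 2 → 3 := fun h κ hκ => notY hκ (h _ _ f perf metaX)
  tfae_have 3 → 1 := fun h X Y _ _ f hf hX 𝒰 hU hc => by
    obtain ⟨W, w1, w2, w3⟩ := pos hf hX (h 𝒰) Subtype.val (fun U => hU U U.2) fun y => by
      obtain ⟨U, h1, h2⟩ : y ∈ ⋃₀ 𝒰 := hc ▸ mem_univ y
      exact ⟨⟨U, h1⟩, h2⟩
    exact ofidx W (fun U => ⟨(w1 U).1, U, U.2, (w1 U).2⟩) w2 w3
  tfae_finish

end Pool.Agent.Results.MP_e848aa_gt.FreeSet
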