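import Pool.Agent.H.MP_e848aa_gt.B
import Pool.Agent.H.MP_e848aa_gt.C

set_option autoImplicit false

namespace Pool.Agent.Results.MP_e848aa_gt.Measurable

open Pool.Agent.H.MP_e848aa_gt

universe u

theorem result {κ : Type u} (𝒰 : Ultrafilter κ) [CountableInterFilter (𝒰 : Filter κ)]
    (hn : ∀ a, {a} ∉ 𝒰) :
    ∃ (X Y : Type u) (_ : TopologicalSpace X) (_ : TopologicalSpace Y) (f : X → Y),
      T35Space X ∧ T35Space Y ∧ Perf f ∧ MetaL X ∧ ¬ MetaL Y :=
  ⟨_, _, _, _, f, inferInstance, inferInstance, perf, metaX, notY (fr 𝒰 hn)⟩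

end Pool.Agent.Results.MP_e848aa_gt.Measurable
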