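import Pool.Agent.H.MP_e848aa_gt.A

set_option autoImplicit false

namespace Pool.Agent.Results.MP_e848aa_gt.Small

open Set Cardinal Pool.Agent.H.MP_e848aa_gt

universe u v

theorem kur {ι : Type u} [DecidableEq ι] (n : ℕ) : ∀ S : Set ι, #S ≤ aleph n →
    ∃ h : Finset ι → Set ι, (∀ s, (h s).Countable) ∧
      ∀ c : Finset ι, ↑c ⊆ S → c.card = n + 1 → ∃ p ∈ c, p ∈ h (c.erase p) := by
  induction n with
  | zero =>
    intro S hS
    refine ⟨fun _ => S, fun _ => le_aleph0_iff_set_countable.1 (by simpa using hS),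
      fun c hc h => ?_⟩
    obtain ⟨p, hp⟩ := Finset.card_pos.1 (by omega : 0 < c.card)
    exact ⟨p, hp, hc hp⟩
  | succ n ih =>
    intro S hS
    obtain ⟨r⟩ : #S ≤ #(aleph (n + 1 : ℕ)).ord.ToType := by simpa using hS
    have h1 : ∀ g : S, #(Subtype.val '' (r ⁻¹' Iio (r g))) ≤ aleph n := fun g => by
      refine mk_image_le.trans ((mk_preimage_of_injective _ _ r.injective).trans ?_)
      have h : #(Iio (r g)) < aleph (n + 1 : ℕ) := by simpa using mk_Iio_lt (r g)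
      exact Order.lt_succ_iff.1 (h.trans_eq (by
        rw [Nat.cast_succ, ← Order.succ_eq_add_one, aleph_succ]))
    choose h h2 h3 using fun g => ih _ (h1 g)
    refine ⟨fun s => ⋃ g ∈ (Subtype.val ⁻¹' (s : Set ι) : Set S), h g (s.erase g), fun s =>
      (s.countable_toSet.preimage Subtype.val_injective).biUnion fun g _ => h2 g _,
      fun c hc h4 => ?_⟩
    obtain ⟨a, ha⟩ := Finset.card_pos.1 (by omega : 0 < c.card)
    obtain ⟨g, g1, g2⟩ := exists_max_image (Subtype.val ⁻¹' (c : Set ι) : Set S) r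
      (c.finite_toSet.preimage Subtype.val_injective.injOn) ⟨⟨a, hc ha⟩, ha⟩
    obtain ⟨p, p1, p2⟩ := h3 g (c.erase g) (fun b hb => ⟨⟨b, hc (Finset.mem_of_mem_erase hb)⟩,
      lt_of_le_of_ne (g2 _ (Finset.mem_of_mem_erase hb)) fun e =>
        Finset.ne_of_mem_erase hb (congrArg Subtype.val (r.injective e)), rfl⟩)
      (by rw [Finset.card_erase_of_mem g1, h4]; rfl)
    refine ⟨p, Finset.mem_of_mem_erase p1, mem_biUnion (x := g) (Finset.mem_coe.2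
      (Finset.mem_erase.2 ⟨(Finset.ne_of_mem_erase p1).symm, g1⟩)) ?_⟩
    rwa [Finset.erase_right_comm]

theorem result {X : Type v} {Y : Type u} [TopologicalSpace X] [TopologicalSpace Y] (f : X → Y)
    (hf : Perf f) (hX : MetaL X) (𝒰 : Set (Set Y)) (hU : ∀ U ∈ 𝒰, IsOpen U)
    (hc : ⋃₀ 𝒰 = Set.univ) (h : #𝒰 < aleph Ordinal.omega0) :
    ∃ 𝒱 : Set (Set Y), (∀ V ∈ 𝒱, IsOpen V ∧ ∃ U ∈ 𝒰, V ⊆ U) ∧ ⋃₀ 𝒱 = Set.univ ∧
      ∀ y, {V | V ∈ 𝒱 ∧ y ∈ V}.Countable := by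
  classical
  obtain ⟨n, hn⟩ : ∃ n : ℕ, #𝒰 ≤ aleph n := by
    rw [aleph_limit Ordinal.isSuccLimit_omega0] at h
    obtain ⟨⟨a, ha⟩, h1⟩ := exists_lt_of_lt_ciSup' h
    obtain ⟨n, rfl⟩ := Ordinal.lt_omega0.1 ha
    exact ⟨n, h1.le⟩
  obtain ⟨g, g1, g2⟩ := kur n (Set.univ : Set 𝒰) (by rwa [mk_univ])
  obtain ⟨W, w1, w2, w3⟩ := pos hf hX (ι := 𝒰) (fun h1 => by
    obtain ⟨c, c1, c2⟩ := h1 g g1
    obtain ⟨s, s1, s2⟩ := c1.exists_subset_card_eq (n + 1)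
    obtain ⟨p, p1, p2⟩ := g2 s (subset_univ _) s2
    exact c2 p (s1 p1) _ (fun a ha => ⟨s1 (Finset.mem_of_mem_erase ha),
      Finset.ne_of_mem_erase ha⟩) p2) Subtype.val (fun U => hU U U.2) fun y => by
      obtain ⟨U, h1, h2⟩ : y ∈ ⋃₀ 𝒰 := hc ▸ mem_univ y
      exact ⟨⟨U, h1⟩, h2⟩
  exact ofidx W (fun U => ⟨(w1 U).1, U, U.2, (w1 U).2⟩) w2 w3

end Pool.Agent.Results.MP_e848aa_gt.Small
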